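import Pool.Agent.Lib.MP_6859a2_co.Main

/-!
For claw-free graphs on at least `N` vertices, the least connectivity forcing any `k` vertices
to be separated by `k` disjoint cycles is `2 k` if `N ≥ 3 k`, and `3 k - 1` otherwise.
-/

namespace Pool.Agent.Results.MP_6859a2_co.AllOrders

open Pool.Agent.Lib.MP_6859a2_co

theorem result (k : ℕ) (hk : 1 ≤ k) (N : ℕ) :
    IsLeast {c : ℕ | ∀ (V : Type) [Fintype V] (G : SimpleGraph V), N ≤ Fintype.card V →
      ClawFree G → IsConn G c → ∀ v : Fin k → V, Function.Injective v → Separated G v}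
      (if 3 * k ≤ N then 2 * k else 3 * k - 1) := by
  classical
  split_ifs with hN
  · refine ⟨fun V _ G h0 h1 h2 v hv => upper2k h1 h2 (by omega) hv, fun c hc => ?_⟩
    by_contra hlt
    exact ext_not_sep hk hN (hc (Fin N) (Ext k N) (by simp) (ext_clawFree k N)
      (ext_conn hN (by omega)) _ (Fin.castLE_injective _))
  · refine ⟨fun V _ G _ h1 h2 v hv => upper2k h1
      ⟨by have := h2.1; omega, fun S hS => h2.2 S (by omega)⟩ (by have := h2.1; omega) hv,
      fun c hc => ?_⟩
    by_contra hlt
    have h := hc (Fin (3 * k - 1)) ⊤ (by simp only [Fintype.card_fin]; omega)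
      (fun v a b c _ _ _ h _ _ => Or.inl h) ?_ (Fin.castLE (by omega)) (Fin.castLE_injective _)
    · have := card_ge_of_separated h
      simp only [Fintype.card_fin] at this
      omega
    · refine ⟨by simp only [Fintype.card_fin]; omega, fun S hS => ?_⟩
      have h1 : S.card < (Finset.univ : Finset (Fin (3 * k - 1))).card := by
        simp only [Finset.card_univ, Fintype.card_fin]; omega
      obtain ⟨w, -, hw⟩ := Finset.exists_mem_notMem_of_card_lt_card h1
      have : Nonempty ((S : Set (Fin (3 * k - 1)))ᶜ : Set _) := ⟨⟨w, hw⟩⟩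
      refine ⟨fun a b => ?_⟩
      by_cases e : a = b
      · rw [e]
      · exact SimpleGraph.Adj.reachable (fun hh => e (Subtype.ext hh))

end Pool.Agent.Results.MP_6859a2_co.AllOrders
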